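import Pool.Agent.DT.Final

/-!
# Zariski's dimensionality type is not compatible with localization and completion

`V` : `X₂X₃X₄X₅(X₂-X₁X₅³)(X₄-X₁X₃³)(X₂-τX₁X₅³)(X₄-τX₁X₃³) = 0` in `k[[τ,s,X₁,…,X₅]]`, `R` the point with
prime `(s,X₁,…,X₅)`.  The completion of the local ring at `R` contains the coefficient fields
`k((τ))` and `k((τ - s X₃))` (both contain `k`); over the first the dimensionality type of the closed point
is at most `4`, over the second it is `5`.

All definitions (the dimensionality type, presentations, completion) are in `Pool.Agent.DT.Defs`.
-/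

universe u

open DT

namespace Pool.Agent.Results.MP_82cb72_ag.DimTypeNotInvariant

/-- For every algebraically closed field `k` of characteristic `0` there are an algebroid hypersurface
`V = Spec O` over `k` (coefficient field `i : k → O`), a point `R ≠ P` of `V` with prime `p` and a coefficient field
`i' : k' → O'` of the completion `O'` of the local ring `O_p`, containing `k`, such that
`d.t._k(V,R) ≠ d.t._{k'}(V',R)`, whatever presentations (minimal bases) are used to compute them. -/
theorem result (k : Type u) [Field k] [IsAlgClosed k] [CharZero k] :
    ∃ (O : Type u) (_ : CommRing O) (i : k →+* O) (p : Ideal O) (_ : p.IsPrime)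
      (k' : Type u) (_ : Field k') (i' : k' →+* Compl O p),
      Nonempty (Pres i) ∧ ¬ p.IsMaximal ∧ Nonempty (Pres i') ∧
      (∀ c, toCompl O p (i c) ∈ i'.range) ∧
      ∀ (P : Pres i) (P' : Pres i'), P.dtAt p ≠ P'.dtClosed :=
  counterexample k

end Pool.Agent.Results.MP_82cb72_ag.DimTypeNotInvariant
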